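import Pool.Agent.K1H81.DE.Main

/-!
# The Sato–Tate conjecture for almost all double covers of projective spaces of even dimension, of large
degree: weak equidistribution

Let `X` be the double cover `y² = ∑ c_μ x^μ` of `ℙ^{2m}`, `m ≥ 1`, ramified along a hypersurface of even
degree `d` with integral coefficients `c_μ`; its dimension `i = 2m` is even.  At a prime `p` of good
reduction (`p` odd, the branch locus smooth modulo `p`) let `x_p` be the class of Frobenius on the
primitive part of `H^{2m}(X)(m)`; by the Lefschetz formula `trace c p k` is the trace of `x_p ^ k`.  The
class `x_p` is determined by the sequence of these traces.  The sequence `(tr g^k)_k`, for a random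
`g ∈ O(N)`, tends for `N → ∞` to the sequence of independent normal variables `Z_k` of variance `k` and
mean value `1` (`k` even) or `0` (`k` odd) (Diaconis and Shahshahani).  So the Sato–Tate conjecture for
the double covers of large degree predicts that the measure `ν_T`, the mean of the unit masses at the
points `(tr x_p, …, tr x_p^r)` for the good primes `p < T`, is for large `T` close to the law `γ_r` of
`(Z_1, …, Z_r)` (`limitMeasure r`), for the weak topology.

The theorem: for every `r`, every neighbourhood `U` of `γ_r` in the weak topology and every `η > 0` there
is an `N` such that for all dimensions `2m ≥ 2` and all even degrees `d ≥ N` there is a `T₀` such that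
for all `H`: for all but a proportion `η` of the double covers with coefficients at most `H`, the measure
`ν_T` lies in `U` for *all* `T` with `T₀ ≤ T ≤ (H/8)^{1/4}` at the same time.  More generally the primes
may be restricted to any set `P` that contains at least `δ T / log T` primes below `T`.

The proof follows that of the theorem for hypersurfaces (`LargeDegreeEquidistribution`); the local
theory, the sums of the quadratic character of the values at closed points, is that of
`RandomDoubleCovers`.
-/

set_option autoImplicit false

namespace Pool.Agent.Results.MP_32ceeb_nt.LargeDegreeDoubleCovers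

open Topology MeasureTheory Pool.Agent.K1H81.DE
open Pool.Agent.K1H81.HX (limitMeasure ManyPrimes dense_univ)
open Pool.Agent.Y722.HS (Mon)

/-- **Weak equidistribution for almost all double covers of even dimension and large degree.** -/
theorem result (r : ℕ) (U : Set (FiniteMeasure (Fin r → ℝ))) (hU : U ∈ 𝓝 (limitMeasure r)) (η : ℝ)
    (hη : 0 < η) (P : Set ℕ) (hP : P = Set.univ ∨ ManyPrimes P) :
    ∃ N : ℕ, ∀ m d : ℕ, 1 ≤ m → Even d → N ≤ d → ∃ T₀ : ℕ, ∀ H : ℕ,
      ({c : Mon (2 * m) d → ℤ | (∀ μ, |c μ| ≤ H) ∧ ∃ T : ℕ, T₀ ≤ T ∧ 8 * T ^ 4 ≤ H ∧
        empirical r P c T ∉ U}.ncard : ℝ) ≤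
        η * (2 * H + 1 : ℝ) ^ Fintype.card (Mon (2 * m) d) := by
  rcases hP with rfl | hP
  · exact quench Set.univ dense_univ U hU hη
  · exact quench P hP U hU hη

end Pool.Agent.Results.MP_32ceeb_nt.LargeDegreeDoubleCovers
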