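import Pool.Agent.K1H81.HX.Fin

/-!
# The Sato–Tate conjecture for almost all hypersurfaces of even dimension and large degree: weak
equidistribution

Let `X` be the hypersurface `∑ c_μ x^μ = 0` of degree `d` in `ℙ^{2m+1}`, `m ≥ 1`, with integral
coefficients `c_μ`; its dimension `i = 2m` is even.  At a prime `p` of good reduction let `x_p` be the
class of Frobenius on the primitive part of `H^{2m}(X)(m)`; by the Lefschetz formula `trace c p k` is the
trace of `x_p ^ k`.  The class `x_p` is determined by the sequence of these traces, and the Sato–Tate
group of a general hypersurface is the orthogonal group `O(N)`, `N = N(m, d) → ∞` for `d → ∞`.  The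
sequence `(tr g^k)_k`, for a random `g ∈ O(N)`, tends for `N → ∞` to the sequence of independent normal
variables `Z_k` of variance `k` and mean value `1` (`k` even) or `0` (`k` odd) (Diaconis and
Shahshahani).  So the Sato–Tate conjecture for the hypersurfaces of large degree predicts that the
measure `ν_T`, the mean of the unit masses at the points `(tr x_p, …, tr x_p^r)` for the good primes
`p < T`, is for large `T` close to the law `γ_r` of `(Z_1, …, Z_r)` (`limitMeasure r`), for the weak topology.

The theorem: for every `r`, every neighbourhood `U` of `γ_r` in the weak topology and every `η > 0` there
is an `N` such that for all dimensions `2m ≥ 2` and all degrees `d ≥ N` there is a `T₀` such that for all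
`H`: for all but a proportion `η` of the hypersurfaces with coefficients at most `H`, the measure `ν_T`
lies in `U` for *all* `T` with `T₀ ≤ T ≤ (H/8)^{1/4}` at the same time.  Since `U` is arbitrary, this
covers all bounded continuous test functions of the traces.  More generally the primes may be restricted
to any set `P` that contains at least `δ T / log T` primes below `T` (for instance the primes which split
completely in a fixed number field `K`, which gives `X` over `K` and the independence of the `x_p` from
fixed Galois representations with finite image).

Used from the starting library: the maximal inequality for functions of the reduction of an integral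
vector (`Pool.Agent.Y722.ST.effective_weights`), the expansion of Taylor of `exp (i y)`
(`Pool.Agent.Y933.KD`) and the prime number theorem (for `P` the set of all primes).  Own steps: the joint
moments of the numbers of the points over all the fields with `p, p², …, p^r` elements (`K1H81.HV`, also
used for the hand-in `RandomHypersurfaces`, the normal law for the fluctuations of polynomials of degree
at most `(d + 1) / 4` in the traces, for very short sums); here: the weak convergence of the laws over
the prime fields, uniformly in the dimension (`HX.Weak`, `HX.Law`), the law of large numbers at the primes
of good reduction for bounded test functions, for all `T` at the same time (`HX.Lln`, `HX.Main`), and the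
passage to the weak topology (`HX.Fin`).
-/

set_option autoImplicit false

namespace Pool.Agent.Results.MP_32ceeb_nt.LargeDegreeEquidistribution

open Topology MeasureTheory Pool.Agent.K1H81.HX
open Pool.Agent.Y722.HS (Mon)

/-- **Weak equidistribution for almost all hypersurfaces of even dimension and large degree.** -/
theorem result (r : ℕ) (U : Set (FiniteMeasure (Fin r → ℝ))) (hU : U ∈ 𝓝 (limitMeasure r)) (η : ℝ)
    (hη : 0 < η) (P : Set ℕ) (hP : P = Set.univ ∨ ManyPrimes P) :
    ∃ N : ℕ, ∀ m d : ℕ, 1 ≤ m → N ≤ d → ∃ T₀ : ℕ, ∀ H : ℕ,
      ({c : Mon (2 * m + 1) d → ℤ | (∀ μ, |c μ| ≤ H) ∧ ∃ T : ℕ, T₀ ≤ T ∧ 8 * T ^ 4 ≤ H ∧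
        empirical r P c T ∉ U}.ncard : ℝ) ≤
        η * (2 * H + 1 : ℝ) ^ Fintype.card (Mon (2 * m + 1) d) := by
  rcases hP with rfl | hP
  · exact quench Set.univ dense_univ U hU hη
  · exact quench P hP U hU hη

end Pool.Agent.Results.MP_32ceeb_nt.LargeDegreeEquidistribution
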