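import Pool.Agent.K1H81.DC.Fin
import Pool.Agent.K1H81.HV.Fin

/-!
# The Sato–Tate sums of random double covers of projective spaces of even dimension: the normal law for
all polynomial class functions

Let `X` be the double cover `y² = ∑ c_μ x^μ` of `ℙ^{2m}`, ramified along a hypersurface of even degree
`d` with integral coefficients `c_μ` (for `m = 1`, `d = 6` these are the K3 surfaces of degree two); its
dimension `i = 2m` is even.  At a prime `p` of good reduction (`p` odd, the branch locus smooth modulo
`p`) let `x_p` be the class of Frobenius on the primitive part of `H^{2m}(X)(m)`, that is the part on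
which the covering involution acts as `-1`; by the Lefschetz formula `trace c p k` is the trace of
`x_p ^ k`.  The polynomials in `tr x_p, tr x_p², …, tr x_p^r` are the symmetric polynomials in the
eigenvalues of `x_p`.

The theorem: for random coefficients in a large box the sums of `φ(tr x_p, …, tr x_p^r) - μ_φ`, with
arbitrary weights, over the primes of good reduction in a set `P` of primes are asymptotically normal,
with the mean value `0` and the variance `Var φ(Z_1, …, Z_r) ∑ w_p²`, for all `m ≥ 1` and even `d`, as
soon as the weighted degree of `φ` (the variable `Z_k` has the degree `k`) is at most `(d + 1) / 4`.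
Here `μ_φ` is the mean value of `φ(Z_1, …, Z_r)` for the independent normal variables `Z_k` of variance
`k` and mean value `1` (`k` even) or `0` (`k` odd), the limits of the `tr g^k`, `g` in `O(N)`.

The limit theorem for local data (`X280.HG.Main`), the forms with prescribed values at closed points
(`K1H81.HV.Pts`) and the scheme for the mixed moments (`K1H81.HV.Mix`) are those of the theorem for
hypersurfaces (`Results/MP_32ceeb_nt/RandomHypersurfaces`).  New here are the sums of the quadratic
character over the closed points: its moments (`S_QS`), its behaviour in extensions (`S_QP`), the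
independence of the values (`S_IND`), and the zeros of the form, which enter the traces of the even
powers of Frobenius (`S_ZC`, `S_NEAR`, `S_PERT`).
-/

set_option autoImplicit false

namespace Pool.Agent.Results.MP_32ceeb_nt.RandomDoubleCovers

open MeasureTheory ProbabilityTheory Pool.Agent.K1H81.DC
open Pool.Agent.Y722.HS (Mon)
open Pool.Agent.K1H81.HV (limitLaw mean mean_limit var_limit wdeg_pos)

/-- The mean value of `φ(Z_1, …, Z_r)`. -/
noncomputable def expectation {r : ℕ} (φ : MvPolynomial (Fin r) ℝ) : ℝ :=
  ∫ z, MvPolynomial.eval z φ ∂(limitLaw r)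

/-- The variance of `φ(Z_1, …, Z_r)`. -/
noncomputable def var {r : ℕ} (φ : MvPolynomial (Fin r) ℝ) : ℝ :=
  ∫ z, (MvPolynomial.eval z φ - expectation φ) ^ 2 ∂(limitLaw r)

open Classical in
/-- The sum of `w_p (φ(tr x_p, …, tr x_p^r) - E φ(Z_1, …, Z_r))` over the primes `p` in `P` of good
reduction. -/
noncomputable def satoTateSum {r m d : ℕ} (φ : MvPolynomial (Fin r) ℝ) (P : Finset ℕ) (w : ℕ → ℝ)
    (c : Mon (2 * m) d → ℤ) : ℝ :=
  ∑ p ∈ P with GoodReduction c p,
    w p * (MvPolynomial.eval (fun k : Fin r => trace c p ((k : ℕ) + 1)) φ - expectation φ)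

/-- **The normal law for the Sato–Tate sums of double covers of even dimension.** -/
theorem result {r : ℕ} (φ : MvPolynomial (Fin r) ℝ) (hφ : ∀ a, φ ≠ MvPolynomial.C a) (m d : ℕ)
    (hm : 1 ≤ m) (he : Even d)
    (hd : 4 * (φ.weightedTotalDegree fun k : Fin r => (k : ℕ) + 1) ≤ d + 1)
    (δ : ℝ) (hδ : 0 < δ) (u ε : ℝ) (hε : 0 < ε) :
    ∃ K : ℕ, ∀ (P : Finset ℕ) (w : ℕ → ℝ) (y H : ℕ), (∀ p ∈ P, p.Prime ∧ p ≤ y) →
      (∀ p ∈ P, |w p| ≤ 1) → δ * P.card ≤ ∑ p ∈ P, w p ^ 2 → K ≤ P.card → y ^ K ≤ H →
      |({c : Mon (2 * m) d → ℤ | (∀ μ, |c μ| ≤ H) ∧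
          satoTateSum φ P w c ≤ u * √(var φ * ∑ p ∈ P, w p ^ 2)}.ncard : ℝ) /
        (2 * H + 1 : ℝ) ^ Fintype.card (Mon (2 * m) d) -
          (gaussianReal 0 1).real (Set.Iic u)| ≤ ε := by
  have e1 : expectation φ = mean φ := mean_limit φ
  have e2 : var φ = mean (φ ^ 2) - mean φ ^ 2 := by
    unfold var
    rw [e1, var_limit]
  unfold satoTateSum
  rw [e1, e2]
  exact law φ hφ m d hm (by have := wdeg_pos φ hφ; omega) he hd δ hδ u ε hε

end Pool.Agent.Results.MP_32ceeb_nt.RandomDoubleCovers
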