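import Pool.Agent.K1H81.HV.Fin

/-!
# The Sato–Tate sums of random hypersurfaces of even dimension: the normal law for all polynomial class
functions

Let `X` be the hypersurface `∑ c_μ x^μ = 0` of degree `d` in `ℙ^{2m+1}`, with integral coefficients `c_μ`;
its dimension `i = 2m` is even.  At a prime `p` of good reduction let `x_p` be the class of Frobenius on
the primitive part of `H^{2m}(X)(m)`; by the Lefschetz formula `trace c p k` is the trace of `x_p ^ k`.
The polynomials in `tr x_p, tr x_p², …, tr x_p^r` are the symmetric polynomials in the eigenvalues of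
`x_p`.

The Sato–Tate group of a general hypersurface is the orthogonal group `O(N)`, so that for the polynomial
`φ` the Sato–Tate conjecture predicts that the sum of `φ(tr x_p, …, tr x_p^r) - μ_φ` over the primes up to
`T` is `o(T / log T)`, where `μ_φ` is the mean value of `φ(tr g, …, tr g^r)` over `O(N)`.  For `N` large in
terms of `φ` this mean value is `E φ(Z_1, …, Z_r)` for independent normal variables `Z_k` of variance `k`
and mean value `1` (`k` even) or `0` (`k` odd) (Diaconis and Shahshahani; this fact is not used, the
theorem is stated with the `Z_k`).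

The theorem: for random coefficients in a large box the sums of `φ(tr x_p, …, tr x_p^r) - μ_φ`, with
arbitrary weights, over the primes of good reduction in a set `P` of primes are asymptotically normal,
with the mean value `0` and the variance `Var φ(Z_1, …, Z_r) ∑ w_p²`, for all `m ≥ 1` and `d`, as soon as
the weighted degree of `φ` (the variable `Z_k` has the degree `k`) is at most `(d + 1) / 4`.

The case of one variable (polynomials in the traces of Frobenius itself), with all primes in place of the
primes of good reduction, is proved in the starting library (`Pool.Agent.X280.HG.Final`), where it was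
never handed in; the limit theorem for local data (`X280.HG.Main`) is taken from there.  New here are the
closed points of all degrees: forms with prescribed values at closed points (`K1H81.HV.Pts`), the numbers
of closed points (`Cnt`, `One`), the joint moments (`Mom`, `Mix`, `Inst`), and the restriction to the
primes of good reduction (`Good`).
-/

set_option autoImplicit false

namespace Pool.Agent.Results.MP_32ceeb_nt.RandomHypersurfaces

open MeasureTheory ProbabilityTheory Pool.Agent.K1H81.HV
open Pool.Agent.Y722.HS (Mon)

/-- The mean value of `φ(Z_1, …, Z_r)`. -/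
noncomputable def expectation {r : ℕ} (φ : MvPolynomial (Fin r) ℝ) : ℝ :=
  ∫ z, MvPolynomial.eval z φ ∂(limitLaw r)

/-- The variance of `φ(Z_1, …, Z_r)`. -/
noncomputable def var {r : ℕ} (φ : MvPolynomial (Fin r) ℝ) : ℝ :=
  ∫ z, (MvPolynomial.eval z φ - expectation φ) ^ 2 ∂(limitLaw r)

open Classical in
/-- The sum of `w_p (φ(tr x_p, …, tr x_p^r) - E φ(Z_1, …, Z_r))` over the primes `p` in `P` of good
reduction. -/
noncomputable def satoTateSum {r m d : ℕ} (φ : MvPolynomial (Fin r) ℝ) (P : Finset ℕ) (w : ℕ → ℝ)
    (c : Mon (2 * m + 1) d → ℤ) : ℝ :=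
  ∑ p ∈ P with GoodReduction c p,
    w p * (MvPolynomial.eval (fun k : Fin r => trace c p ((k : ℕ) + 1)) φ - expectation φ)

/-- **The normal law for the Sato–Tate sums of hypersurfaces of even dimension.** -/
theorem result {r : ℕ} (φ : MvPolynomial (Fin r) ℝ) (hφ : ∀ a, φ ≠ MvPolynomial.C a) (m d : ℕ)
    (hm : 1 ≤ m) (hd : 4 * (φ.weightedTotalDegree fun k : Fin r => (k : ℕ) + 1) ≤ d + 1)
    (δ : ℝ) (hδ : 0 < δ) (u ε : ℝ) (hε : 0 < ε) :
    ∃ K : ℕ, ∀ (P : Finset ℕ) (w : ℕ → ℝ) (y H : ℕ), (∀ p ∈ P, p.Prime ∧ p ≤ y) →
      (∀ p ∈ P, |w p| ≤ 1) → δ * P.card ≤ ∑ p ∈ P, w p ^ 2 → K ≤ P.card → y ^ K ≤ H →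
      |({c : Mon (2 * m + 1) d → ℤ | (∀ μ, |c μ| ≤ H) ∧
          satoTateSum φ P w c ≤ u * √(var φ * ∑ p ∈ P, w p ^ 2)}.ncard : ℝ) /
        (2 * H + 1 : ℝ) ^ Fintype.card (Mon (2 * m + 1) d) -
          (gaussianReal 0 1).real (Set.Iic u)| ≤ ε := by
  have e1 : expectation φ = mean φ := mean_limit φ
  have e2 : var φ = mean (φ ^ 2) - mean φ ^ 2 := by
    unfold var
    rw [e1, var_limit]
  unfold satoTateSum
  rw [e1, e2]
  exact law_good φ hφ m d hm (by have := wdeg_pos φ hφ; omega) hd δ hδ u ε hε

end Pool.Agent.Results.MP_32ceeb_nt.RandomHypersurfaces
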